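import Pool.Agent.Q240.EX.Stm2

set_option autoImplicit false

/-!
# Project EX, job UZt: the collapse for all degrees, also infinite
-/

namespace Pool.Agent.Q65.EX

open Filter Topology MeasureTheory
open Pool.Agent
open Pool.Agent.Q240.EX Pool.Agent.Q240.CD

lemma hd_of_hn {a : ℝ} {ν : ℕ∞} {f : ℝ → ℂ} (hf : Y23.G.F.Hn a ν f) : Y23.Hd a f := ⟨hf.1, hf.2.1⟩

lemma hn_mono {a : ℝ} {ν ν' : ℕ∞} (h : ν ≤ ν') {f : ℝ → ℂ} (hf : Y23.G.F.Hn a ν f) : Y23.G.F.Hn a ν' f :=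
  ⟨hf.1, hf.2.1, fun k hk => hf.2.2 k (h.trans_lt hk)⟩

lemma sq_add_le_par (x y : ℂ) {s : ℝ} (hs : 0 < s) : ‖x + y‖ ^ 2 ≤ (1 + s) * ‖x‖ ^ 2 + (1 + 1 / s) * ‖y‖ ^ 2 := by
  have h := norm_add_le x y
  have h0 := norm_nonneg (x + y)
  have h1 : ‖x + y‖ ^ 2 ≤ (‖x‖ + ‖y‖) ^ 2 := pow_le_pow_left₀ h0 h 2
  have h2 : 2 * ‖x‖ * ‖y‖ ≤ s * ‖x‖ ^ 2 + 1 / s * ‖y‖ ^ 2 := by
    have h3 : 0 ≤ (s * ‖x‖ - ‖y‖) ^ 2 / s := by positivity
    have h4 : (s * ‖x‖ - ‖y‖) ^ 2 / s = s * ‖x‖ ^ 2 - 2 * ‖x‖ * ‖y‖ + 1 / s * ‖y‖ ^ 2 := by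
      field_simp
      ring
    linarith
  nlinarith

lemma SS_add_par {a : ℝ} (ha : 0 < a) {f g : ℝ → ℂ} (hf : Y23.Hd a f) (hg : Y23.Hd a g) {s : ℝ} (hs : 0 < s) :
    Y23.SS (fun x => f x + g x) ≤ (1 + s) * Y23.SS f + (1 + 1 / s) * Y23.SS g := by
  unfold Y23.SS
  have h1 := hf.dom ha
  have h2 := hg.dom ha
  rw [← tsum_mul_left, ← tsum_mul_left, ← (h1.mul_left (1 + s)).tsum_add (h2.mul_left (1 + 1 / s))]
  refine ((hf.add hg).dom ha).tsum_le_tsum (fun ρ => ?_) ((h1.mul_left (1 + s)).add (h2.mul_left (1 + 1 / s)))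
  rw [Y23.TT_add hf.1 hg.1]
  have h3 := mul_le_mul_of_nonneg_left (sq_add_le_par (Y23.TT f ((ρ : ℂ) - 1 / 2)) (Y23.TT g ((ρ : ℂ) - 1 / 2)) hs)
    (Nat.cast_nonneg (Y23.mu ρ) : (0 : ℝ) ≤ Y23.mu ρ)
  linarith

lemma SS_neg (f : ℝ → ℂ) : Y23.SS (fun x => -1 * f x) = Y23.SS f := by
  rw [Y23.SS_smul]
  simp

/-- the filter, in plain words -/
lemma of_Li {P : ℝ × ℕ → Prop} (h : ∀ᶠ p in Li, P p) : ∃ A K : ℝ, ∀ (a : ℝ) (n : ℕ), A ≤ a → K ≤ (n : ℝ) / a ^ 2 → P (a, n) := by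
  have hb := ((atTop_basis (α := ℝ)).comap (fun p : ℝ × ℕ => p.1)).inf
    ((atTop_basis (α := ℝ)).comap (fun p : ℝ × ℕ => (p.2 : ℝ) / p.1 ^ 2))
  obtain ⟨⟨A, K⟩, -, hs⟩ := hb.mem_iff.1 h
  exact ⟨A, K, fun a n ha hn => hs ⟨ha, hn⟩⟩

/-- convergence of the transforms -/
lemma TT_tendsto {a : ℝ} (ha : 0 < a) {f : ℝ → ℂ} {h : ℕ → ℝ → ℂ} (hf : Y23.Hd a f) (hh : ∀ k, Y23.Hd a (h k))
    (hl : ∀ k : ℕ, Y23.LL (fun x => f x - h k x) ≤ 1 / ((k : ℝ) + 1)) (w : ℂ) :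
    Tendsto (fun k => Y23.TT (h k) w) atTop (𝓝 (Y23.TT f w)) := by
  have hC : 0 ≤ 2 * a * Real.exp (2 * a * |w.re|) := by positivity
  have h1 : ∀ k, ‖Y23.TT (h k) w - Y23.TT f w‖ ^ 2 ≤ 2 * a * Real.exp (2 * a * |w.re|) * (1 / ((k : ℝ) + 1)) := by
    intro k
    have h2 : Y23.Hd a (fun x => f x - h k x) := hf.sub (hh k)
    have h3 := Y23.norm_TT_le ha h2.1 w
    have h4 := Y23.N2_le_LL h2
    have h5 := hl k
    have h6 := Y23.N2_nonneg (fun x => f x - h k x)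
    have hpi := Real.pi_gt_three
    rw [Y23.TT_sub hf.1 (hh k).1] at h3
    rw [norm_sub_rev]
    refine h3.trans (mul_le_mul_of_nonneg_left ?_ hC)
    nlinarith
  have h2 : Tendsto (fun k : ℕ => 2 * a * Real.exp (2 * a * |w.re|) * (1 / ((k : ℝ) + 1))) atTop (𝓝 0) := by
    have := (tendsto_one_div_add_atTop_nhds_zero_nat (𝕜 := ℝ)).const_mul (2 * a * Real.exp (2 * a * |w.re|))
    simpa using this
  have h3 : Tendsto (fun k => ‖Y23.TT (h k) w - Y23.TT f w‖ ^ 2) atTop (𝓝 0) :=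
    squeeze_zero (fun k => by positivity) h1 h2
  have h4 : Tendsto (fun k => ‖Y23.TT (h k) w - Y23.TT f w‖) atTop (𝓝 0) := by
    have := h3.sqrt
    simpa [Real.sqrt_sq (norm_nonneg _)] using this
  exact tendsto_iff_norm_sub_tendsto_zero.2 h4

/-- **UZt**: the collapse for all degrees, also infinite -/
theorem uZt (hUZ : S_UZ) (hDn : S_Dn) : S_UZt := by
  intro hRH γ hγ R ε hε
  obtain ⟨A0, K, hfin⟩ := of_Li (hUZ hRH γ hγ R ε hε)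
  refine ⟨K, max A0 1, fun a ν ha hν δ hδ f hf z hz => ?_⟩
  have ha0 : A0 ≤ a := (le_max_left _ _).trans ha
  have ha1 : 1 ≤ a := (le_max_right _ _).trans ha
  have hapos : 0 < a := by linarith
  have hn : ∀ n : ℕ, ⌈K * a ^ 2⌉₊ ≤ n → K ≤ (n : ℝ) / a ^ 2 := by
    intro n hn
    rw [le_div_iff₀ (by positivity)]
    exact (Nat.le_ceil _).trans (by exact_mod_cast hn)
  induction ν using ENat.recTopCoe with
  | coe n =>
    exact hfin a n ha0 (hn n (by unfold Big at hν; exact_mod_cast hν)) δ hδ f hf z hz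
  | top =>
    have hfd := hd_of_hn hf
    have hex : ∀ k : ℕ, ∃ (n : ℕ) (h : ℝ → ℂ), ⌈K * a ^ 2⌉₊ ≤ n ∧ Y23.G.F.Hn a (n : ℕ∞) h ∧
        Y23.LL (fun x => f x - h x) ≤ 1 / ((k : ℝ) + 1) := by
      intro k
      obtain ⟨n, h, h1, h2⟩ := hDn a f hapos hfd (1 / ((k : ℝ) + 1)) (by positivity)
      exact ⟨max n ⌈K * a ^ 2⌉₊, h, le_max_right _ _, hn_mono (by exact_mod_cast le_max_left _ _) h1, h2⟩
    choose n h hn1 hh hl using hex
    obtain ⟨C, hC, hdom⟩ := Y23.dom_of_Hd hapos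
    set G : ℂ := GC (fun j => γ j ^ 2) (z ^ 2) with hG
    have hhd : ∀ k, Y23.Hd a (h k) := fun k => hd_of_hn (hh k)
    have hfinite : ∀ k, δ * ‖Y23.TT (h k) (Complex.I * z) - Y23.TT (h k) 0 * G‖ ^ 2 ≤ ε * Y23.QQ (h k) := by
      intro k
      exact hfin a (n k) ha0 (hn _ (hn1 k)) δ (fun g hg hg0 => hδ g (hn_mono le_top hg) hg0) (h k) (hh k) z hz
    have hlim : Tendsto (fun k => δ * ‖Y23.TT (h k) (Complex.I * z) - Y23.TT (h k) 0 * G‖ ^ 2) atTop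
        (𝓝 (δ * ‖Y23.TT f (Complex.I * z) - Y23.TT f 0 * G‖ ^ 2)) :=
      ((((TT_tendsto hapos hfd hhd hl _).sub ((TT_tendsto hapos hfd hhd hl 0).mul_const G)).norm).pow 2).const_mul δ
    have hSS : ∀ s : ℝ, 0 < s → ∀ k : ℕ, Y23.SS (h k) ≤ (1 + s) * Y23.SS f + (1 + 1 / s) * (C * (1 / ((k : ℝ) + 1))) := by
      intro s hs k
      have h1 : Y23.Hd a (fun x => f x - h k x) := hfd.sub (hhd k)
      have h2 := SS_add_par hapos hfd (h1.smul (-1)) hs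
      have e : (fun x => f x + -1 * (f x - h k x)) = h k := by funext x; ring
      rw [e, SS_neg] at h2
      refine h2.trans ?_
      have h3 := (hdom _ h1).2
      have h4 : Y23.SS (fun x => f x - h k x) ≤ C * (1 / ((k : ℝ) + 1)) :=
        h3.trans (mul_le_mul_of_nonneg_left (hl k) hC.le)
      have h5 : 0 ≤ 1 + 1 / s := by positivity
      have := mul_le_mul_of_nonneg_left h4 h5
      linarith
    have hkey : ∀ s : ℝ, 0 < s → δ * ‖Y23.TT f (Complex.I * z) - Y23.TT f 0 * G‖ ^ 2 ≤ ε * ((1 + s) * Y23.SS f) := by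
      intro s hs
      have h1 : Tendsto (fun k : ℕ => ε * ((1 + s) * Y23.SS f + (1 + 1 / s) * (C * (1 / ((k : ℝ) + 1))))) atTop
          (𝓝 (ε * ((1 + s) * Y23.SS f + (1 + 1 / s) * (C * 0)))) :=
        ((((tendsto_one_div_add_atTop_nhds_zero_nat (𝕜 := ℝ)).const_mul C).const_mul (1 + 1 / s)).const_add
          ((1 + s) * Y23.SS f)).const_mul ε
      have h2 := le_of_tendsto_of_tendsto' hlim h1 fun k => (hfinite k).trans (by
        rw [Y23.QQ_eq_SS hRH]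
        exact mul_le_mul_of_nonneg_left (hSS s hs k) hε.le)
      simpa using h2
    have h3 : Tendsto (fun m : ℕ => ε * ((1 + 1 / ((m : ℝ) + 1)) * Y23.SS f)) atTop (𝓝 (ε * ((1 + 0) * Y23.SS f))) :=
      (((tendsto_one_div_add_atTop_nhds_zero_nat (𝕜 := ℝ)).const_add 1).mul_const (Y23.SS f)).const_mul ε
    have h4 := ge_of_tendsto' h3 fun m => hkey (1 / ((m : ℝ) + 1)) (by positivity)
    rw [Y23.QQ_eq_SS hRH]
    simpa using h4

end Pool.Agent.Q65.EX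

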